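import Pool.Agent.W488.IW.Stm
import Pool.Agent.W779.Morrey.Flow

/-! Project IW: integration by parts on the cube (part IBP). -/

set_option autoImplicit false

namespace Pool.Agent.W116.IW.Ibp

open Pool.Agent.W488.IW
open MeasureTheory Set Filter Topology
open Pool.Agent.W779.Morrey (mk' mk'_single integral_div_periodic)

/-- symbols of the two partial derivatives -/
noncomputable def dk (j : Fin 2) (k : Idx) : ℂ :=
  if j = 0 then ka k + kb k else Complex.I * (ka k - kb k)

theorem dk_zero (k : Idx) : dk 0 k = 2 * Real.pi * Complex.I * k.1 := by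
  simp only [dk, ka, kb, if_true]; ring

theorem dk_one (k : Idx) : dk 1 k = 2 * Real.pi * Complex.I * k.2 := by
  have h : (1 : Fin 2) ≠ 0 := by decide
  simp only [dk, ka, kb, if_neg h]
  linear_combination (-2 * Real.pi * Complex.I * k.2) * Complex.I_sq

theorem hasFDerivAt_ek (k : Idx) (x : V) :
    HasFDerivAt (ek k) (mk' fun j => dk j k * ek k x) x := by
  have h0 : HasFDerivAt (fun x : V => (x 0 : ℝ)) (ContinuousLinearMap.proj (R := ℝ)
      (φ := fun _ : Fin 2 => ℝ) 0) x := hasFDerivAt_apply 0 x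
  have h1 : HasFDerivAt (fun x : V => (x 1 : ℝ)) (ContinuousLinearMap.proj (R := ℝ)
      (φ := fun _ : Fin 2 => ℝ) 1) x := hasFDerivAt_apply 1 x
  have h0' : HasFDerivAt (fun x : V => ((x 0 : ℝ) : ℂ)) (Complex.ofRealCLM.comp
      (ContinuousLinearMap.proj (R := ℝ) (φ := fun _ : Fin 2 => ℝ) 0)) x :=
    Complex.ofRealCLM.hasFDerivAt.comp x h0
  have h1' : HasFDerivAt (fun x : V => ((x 1 : ℝ) : ℂ)) (Complex.ofRealCLM.comp
      (ContinuousLinearMap.proj (R := ℝ) (φ := fun _ : Fin 2 => ℝ) 1)) x :=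
    Complex.ofRealCLM.hasFDerivAt.comp x h1
  have h2 := ((h0'.const_mul (k.1 : ℂ)).add (h1'.const_mul (k.2 : ℂ))).const_mul
    (2 * (Real.pi : ℂ))
  have h3 := (h2.mul_const Complex.I).cexp
  refine h3.congr_fderiv ?_
  ext v
  simp [mk', Fin.sum_univ_two, dk_zero, dk_one, ek]
  ring

theorem hasFDerivAt_tp (Λ : Finset Idx) (w c : Idx → ℂ) (x : V) :
    HasFDerivAt (tp Λ w c) (mk' fun j => tp Λ (fun k => dk j k * w k) c x) x := by
  have h : HasFDerivAt (fun x => ∑ k ∈ Λ, w k * c k * ek k x)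
      (∑ k ∈ Λ, (w k * c k) • (mk' fun j => dk j k * ek k x : V →L[ℝ] ℂ)) x :=
    HasFDerivAt.fun_sum fun k _ => (hasFDerivAt_ek k x).const_mul (w k * c k)
  refine h.congr_fderiv ?_
  ext v
  simp only [mk', Fin.sum_univ_two, tp, sum_apply,
    smul_apply, add_apply,
    ContinuousLinearMap.smulRight_apply, ContinuousLinearMap.proj_apply, smul_eq_mul,
    Finset.smul_sum, Complex.real_smul, ← Finset.sum_add_distrib]
  refine Finset.sum_congr rfl fun k _ => ?_
  ring

theorem contDiff_tp (Λ : Finset Idx) (w c : Idx → ℂ) (n : WithTop ℕ∞) :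
    ContDiff ℝ n (tp Λ w c) := by
  unfold tp ek
  refine ContDiff.sum fun k _ => ?_
  refine contDiff_const.mul ?_
  refine ContDiff.cexp ?_
  refine ContDiff.mul ?_ contDiff_const
  refine contDiff_const.mul ?_
  refine ContDiff.add ?_ ?_
  · exact contDiff_const.mul (Complex.ofRealCLM.contDiff.comp (contDiff_apply ℝ ℝ 0))
  · exact contDiff_const.mul (Complex.ofRealCLM.contDiff.comp (contDiff_apply ℝ ℝ 1))

theorem ek_periodic (k : Idx) (i : Fin 2) (x : V) : ek k (x + Pi.single i 1) = ek k x := by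
  unfold ek
  rw [Complex.exp_eq_exp_iff_exists_int]
  fin_cases i
  · refine ⟨k.1, ?_⟩
    simp
    ring
  · refine ⟨k.2, ?_⟩
    simp
    ring

theorem tp_periodic (Λ : Finset Idx) (w c : Idx → ℂ) (i : Fin 2) (x : V) :
    tp Λ w c (x + Pi.single i 1) = tp Λ w c x := by
  unfold tp
  exact Finset.sum_congr rfl fun k _ => by rw [ek_periodic]

theorem tp_add (Λ : Finset Idx) (w w' c : Idx → ℂ) (x : V) :
    tp Λ (fun k => w k + w' k) c x = tp Λ w c x + tp Λ w' c x := by
  unfold tp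
  rw [← Finset.sum_add_distrib]
  exact Finset.sum_congr rfl fun k _ => by ring

theorem tp_sub (Λ : Finset Idx) (w w' c : Idx → ℂ) (x : V) :
    tp Λ (fun k => w k - w' k) c x = tp Λ w c x - tp Λ w' c x := by
  unfold tp
  rw [← Finset.sum_sub_distrib]
  exact Finset.sum_congr rfl fun k _ => by ring

theorem tp_mul (Λ : Finset Idx) (a : ℂ) (w c : Idx → ℂ) (x : V) :
    tp Λ (fun k => a * w k) c x = a * tp Λ w c x := by
  unfold tp
  rw [Finset.mul_sum]
  exact Finset.sum_congr rfl fun k _ => by ring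

/-- the partial derivatives of the gradient -/
noncomputable def G (Λ : Finset Idx) (c : Idx → ℂ) (x : V) (j : Fin 2) : ℂ × ℂ :=
  (tp Λ (fun k => dk j k * ka k) c x, tp Λ (fun k => dk j k * kb k) c x)

theorem G_zero (Λ : Finset Idx) (c : Idx → ℂ) (x : V) :
    G Λ c x 0 = (pp Λ c x + qq Λ c x, qq Λ c x + rr Λ c x) := by
  unfold G pp qq rr
  rw [← tp_add, ← tp_add]
  refine Prod.ext ?_ ?_
  · refine congrArg (fun w => tp Λ w c x) (funext fun k => ?_)
    simp only [dk, if_true]; ring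
  · refine congrArg (fun w => tp Λ w c x) (funext fun k => ?_)
    simp only [dk, if_true]; ring

theorem G_one (Λ : Finset Idx) (c : Idx → ℂ) (x : V) :
    G Λ c x 1 = (Complex.I * (pp Λ c x - qq Λ c x), Complex.I * (qq Λ c x - rr Λ c x)) := by
  have h : (1 : Fin 2) ≠ 0 := by decide
  unfold G pp qq rr
  rw [← tp_sub, ← tp_sub, ← tp_mul, ← tp_mul]
  refine Prod.ext ?_ ?_
  · refine congrArg (fun w => tp Λ w c x) (funext fun k => ?_)
    simp only [dk, if_neg h]; ring
  · refine congrArg (fun w => tp Λ w c x) (funext fun k => ?_)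
    simp only [dk, if_neg h]; ring

theorem hasFDerivAt_gd (Λ : Finset Idx) (c : Idx → ℂ) (x : V) :
    HasFDerivAt (gd Λ c) (mk' fun j => G Λ c x j) x := by
  have h := (hasFDerivAt_tp Λ ka c x).prodMk (hasFDerivAt_tp Λ kb c x)
  refine h.congr_fderiv ?_
  ext v <;> simp [mk', Fin.sum_univ_two, G]

theorem contDiff_gd (Λ : Finset Idx) (c : Idx → ℂ) (n : WithTop ℕ∞) : ContDiff ℝ n (gd Λ c) :=
  (contDiff_tp Λ ka c n).prodMk (contDiff_tp Λ kb c n)

theorem gd_periodic (Λ : Finset Idx) (c : Idx → ℂ) (i : Fin 2) (x : V) :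
    gd Λ c (x + Pi.single i 1) = gd Λ c x := by
  unfold gd
  rw [tp_periodic, tp_periodic]

/-- the two linear maps `φ ↦ (φ/2, φ/2)` and `φ ↦ (-iφ/2, iφ/2)` -/
noncomputable def LL (j : Fin 2) : ℂ →L[ℝ] ℂ × ℂ :=
  if j = 0 then
    (((1 / 2 : ℂ) • ContinuousLinearMap.id ℂ ℂ).prod
      ((1 / 2 : ℂ) • ContinuousLinearMap.id ℂ ℂ)).restrictScalars ℝ
  else
    (((-(Complex.I / 2) : ℂ) • ContinuousLinearMap.id ℂ ℂ).prod
      ((Complex.I / 2 : ℂ) • ContinuousLinearMap.id ℂ ℂ)).restrictScalars ℝ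

theorem LL_zero (φ : ℂ) : LL 0 φ = (φ / 2, φ / 2) := by
  simp only [LL, if_true]
  refine Prod.ext ?_ ?_ <;> simp <;> ring

theorem LL_one (φ : ℂ) : LL 1 φ = (-(Complex.I * φ / 2), Complex.I * φ / 2) := by
  have h : (1 : Fin 2) ≠ 0 := by decide
  simp only [LL, if_neg h]
  refine Prod.ext ?_ ?_ <;> simp <;> ring

theorem gd_eq (Λ : Finset Idx) (d : Idx → ℂ) (x : V) :
    LL 0 (tp Λ (fun k => dk 0 k * 1) d x) + LL 1 (tp Λ (fun k => dk 1 k * 1) d x) = gd Λ d x := by
  have h : (1 : Fin 2) ≠ 0 := by decide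
  have e0 : tp Λ (fun k => dk 0 k * 1) d x = tp Λ ka d x + tp Λ kb d x := by
    rw [← tp_add]
    refine congrArg (fun w => tp Λ w d x) (funext fun k => ?_)
    simp only [dk, if_true]; ring
  have e1 : tp Λ (fun k => dk 1 k * 1) d x = Complex.I * (tp Λ ka d x - tp Λ kb d x) := by
    rw [← tp_sub, ← tp_mul]
    refine congrArg (fun w => tp Λ w d x) (funext fun k => ?_)
    simp only [dk, if_neg h]; ring
  rw [LL_zero, LL_one, e0, e1]
  unfold gd
  refine Prod.ext ?_ ?_
  · simp only [Prod.fst_add]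
    linear_combination (-(tp Λ ka d x - tp Λ kb d x) / 2) * Complex.I_sq
  · simp only [Prod.snd_add]
    linear_combination ((tp Λ ka d x - tp Λ kb d x) / 2) * Complex.I_sq

theorem main : S_IBP := by
  intro w hw Λ c d
  have hP1 : ContDiff ℝ 1 (fderiv ℝ w) := hw.fderiv_right (by norm_num)
  have hPd : ∀ y, HasFDerivAt (fderiv ℝ w) (fderiv ℝ (fderiv ℝ w) y) y := fun y =>
    (hP1.differentiable (by norm_num) y).hasFDerivAt
  set P := fderiv ℝ w with hPdef
  set H := fderiv ℝ P with hHdef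
  have hφ : ∀ x, HasFDerivAt (tp Λ (fun _ => 1) d)
      (mk' fun j => tp Λ (fun k => dk j k * 1) d x) x := fun x => hasFDerivAt_tp Λ _ d x
  set f : Fin 2 → V → ℝ := fun i x => P (gd Λ c x) (LL i (tp Λ (fun _ => 1) d x)) with hf
  have hfc : ∀ i, ContDiff ℝ 1 (f i) := by
    intro i
    exact (hP1.comp (contDiff_gd Λ c 1)).clm_apply ((LL i).contDiff.comp (contDiff_tp Λ _ d 1))
  have hfd : ∀ i x, HasFDerivAt (f i)
      ((P (gd Λ c x)).comp ((LL i).comp (mk' fun j => tp Λ (fun k => dk j k * 1) d x))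
        + ((H (gd Λ c x)).comp (mk' fun j => G Λ c x j)).flip (LL i (tp Λ (fun _ => 1) d x)))
      x := fun i x => ((hPd (gd Λ c x)).comp x (hasFDerivAt_gd Λ c x)).clm_apply
        ((LL i).hasFDerivAt.comp x (hφ x))
  have key := integral_div_periodic f (fun i => fderiv ℝ (f i))
    (fun i x => ((hfc i).differentiable (by norm_num) x).hasFDerivAt)
    (fun i => (hfc i).continuous_fderiv (by norm_num))
    (fun i x _ => by
      simp only [hf]
      rw [gd_periodic, tp_periodic])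
  have hcont : Continuous (fun x => P (gd Λ c x) (gd Λ d x)) :=
    (hP1.continuous.comp (contDiff_gd Λ c 1).continuous).clm_apply (contDiff_gd Λ d 1).continuous
  have hpt : ∀ x, ∑ i, fderiv ℝ (f i) x (Pi.single i 1)
      = P (gd Λ c x) (gd Λ d x) + DIV w (gd Λ c x) (pp Λ c x) (qq Λ c x) (rr Λ c x)
        (tp Λ (fun _ => 1) d x) := by
    intro x
    rw [← gd_eq Λ d, map_add]
    unfold DIV
    rw [Fin.sum_univ_two, (hfd 0 x).fderiv, (hfd 1 x).fderiv, ← LL_zero, ← LL_one, ← G_zero,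
      ← G_one]
    simp only [add_apply, ContinuousLinearMap.comp_apply,
      ContinuousLinearMap.flip_apply, mk'_single]
    rw [← hPdef, ← hHdef]
    ring
  have hint : ∀ x, DIV w (gd Λ c x) (pp Λ c x) (qq Λ c x) (rr Λ c x)
        (tp Λ (fun _ => 1) d x) = (∑ i, fderiv ℝ (f i) x (Pi.single i 1))
          - P (gd Λ c x) (gd Λ d x) := by
    intro x; rw [hpt]; ring
  simp only [hint]
  rw [integral_sub, key]
  · ring
  · refine Continuous.integrableOn_Icc ?_
    refine continuous_finsetSum _ fun i _ => ?_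
    exact ((hfc i).continuous_fderiv (by norm_num)).clm_apply continuous_const
  · exact hcont.integrableOn_Icc

end Pool.Agent.W116.IW.Ibp
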